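import Mathlib

open Filter Topology ArithmeticFunction ArithmeticFunction.vonMangoldt

namespace Pool.Agent.H64NS

/-- The sum of the reciprocals of the primes in a residue class diverges. -/
theorem ns_unit {m : ℕ} [NeZero m] {a : ZMod m} (ha : IsUnit a) :
    ¬ Summable (fun q : ℕ => if q.Prime ∧ (q : ZMod m) = a then (1 : ℝ) / q else 0) := by
  classical
  intro hS
  have hR : ∀ n : ℕ, residueClass a n = if (n : ZMod m) = a then vonMangoldt n else 0 := by
    intro n
    simp only [residueClass, Set.indicator_apply, Set.mem_ofPred_eq]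
  set bound : ℕ → ℝ := fun n => (if n.Prime ∧ (n : ZMod m) = a then (1 : ℝ) / n else 0)
    + (if n.Prime then 0 else residueClass a n) / n with hbound
  have hbs : Summable bound := hS.add (summable_residueClass_non_primes_div a)
  have hlim : ∀ n : ℕ, Tendsto (fun x : ℝ => (x - 1) * (residueClass a n / (n : ℝ) ^ x))
      (𝓝[>] 1) (𝓝 0) := by
    intro n
    rcases n.eq_zero_or_pos with rfl | hn
    · simp
    · have hn0 : (n : ℝ) ≠ 0 := by exact_mod_cast hn.ne'
      have h1 : Continuous fun x : ℝ => (n : ℝ) ^ x := Real.continuous_const_rpow hn0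
      have h2 : Continuous fun x : ℝ => (x - 1) * (residueClass a n / (n : ℝ) ^ x) := by
        refine (continuous_id.sub continuous_const).mul (continuous_const.div h1 fun x => ?_)
        exact (Real.rpow_pos_of_pos (by exact_mod_cast hn) x).ne'
      have h3 := h2.tendsto 1
      simp only [sub_self, zero_mul] at h3
      exact h3.mono_left nhdsWithin_le_nhds
  have hdom : ∀ᶠ x : ℝ in 𝓝[>] 1, ∀ n : ℕ,
      ‖(x - 1) * (residueClass a n / (n : ℝ) ^ x)‖ ≤ bound n := by
    have h2 : ∀ᶠ x : ℝ in 𝓝[>] 1, x < 2 := by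
      filter_upwards [Ioo_mem_nhdsGT (show (1 : ℝ) < 2 by norm_num)] with x hx
      exact hx.2
    filter_upwards [self_mem_nhdsWithin, h2] with x hx hx2 n
    have hx1 : 0 < x - 1 := sub_pos.2 hx
    rcases n.eq_zero_or_pos with rfl | hn
    · simp [hbound]
    have hnR : (0 : ℝ) < n := by exact_mod_cast hn
    have hn1 : (1 : ℝ) ≤ n := by exact_mod_cast hn
    have hpow : (n : ℝ) ^ x = n * (n : ℝ) ^ (x - 1) := by
      rw [← Real.rpow_one_add' hnR.le (by linarith)]
      congr 1
      ring
    have hpp : 0 < (n : ℝ) ^ (x - 1) := Real.rpow_pos_of_pos hnR _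
    have hr0 := residueClass_nonneg a n
    rw [Real.norm_of_nonneg (mul_nonneg hx1.le (div_nonneg hr0 (Real.rpow_pos_of_pos hnR x).le))]
    by_cases hp : n.Prime
    · by_cases hna : (n : ZMod m) = a
      · have h3 : residueClass a n = Real.log n := by
          rw [hR, if_pos hna, vonMangoldt_apply_prime hp]
        have h4 : bound n = 1 / n := by
          simp only [hbound, hp, hna, and_self, if_true, zero_div, add_zero]
        rw [h3, h4, hpow, mul_div_assoc', div_le_div_iff₀ (mul_pos hnR hpp) hnR]
        have h5 : (x - 1) * Real.log n ≤ (n : ℝ) ^ (x - 1) := by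
          rw [Real.rpow_def_of_pos hnR]
          have := Real.add_one_le_exp (Real.log n * (x - 1))
          linarith
        nlinarith
      · have h3 : residueClass a n = 0 := by rw [hR, if_neg hna]
        have h4 : bound n = 0 := by
          simp only [hbound, hp, hna, and_false, if_false, if_true, zero_div, add_zero]
        rw [h3, h4, zero_div, mul_zero]
    · have h4 : bound n = residueClass a n / n := by
        simp only [hbound, hp, false_and, if_false, zero_add]
      rw [h4, hpow]
      have h5 : 1 ≤ (n : ℝ) ^ (x - 1) := Real.one_le_rpow hn1 hx1.le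
      have h6 : residueClass a n / (n * (n : ℝ) ^ (x - 1)) ≤ residueClass a n / n := by
        apply div_le_div_of_nonneg_left hr0 hnR
        nlinarith
      have h7 : 0 ≤ residueClass a n / (n * (n : ℝ) ^ (x - 1)) := by positivity
      nlinarith
  have hT := tendsto_tsum_of_dominated_convergence hbs hlim hdom
  simp only [tsum_zero, tsum_mul_left] at hT
  obtain ⟨C, hC⟩ := LSeries_residueClass_lower_bound ha
  have hlow : Tendsto (fun x : ℝ => ((m.totient : ℝ)⁻¹ - C * (x - 1))) (𝓝[>] 1)
      (𝓝 ((m.totient : ℝ)⁻¹ - C * (1 - 1))) := by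
    have h2 : Continuous fun x : ℝ => ((m.totient : ℝ)⁻¹ - C * (x - 1)) := by fun_prop
    exact (h2.tendsto 1).mono_left nhdsWithin_le_nhds
  have hle := le_of_tendsto_of_tendsto hlow hT (by
    filter_upwards [Ioo_mem_nhdsGT (show (1 : ℝ) < 2 by norm_num)] with x hx
    have h1 := hC (x := x) ⟨hx.1, hx.2.le⟩
    have hx1 : 0 < x - 1 := sub_pos.2 hx.1
    have h2 := mul_le_mul_of_nonneg_left h1 hx1.le
    have h3 : (x - 1) * ((m.totient : ℝ)⁻¹ / (x - 1) - C) = (m.totient : ℝ)⁻¹ - C * (x - 1) := by
      field_simp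
    rw [h3] at h2
    exact h2)
  have hpos : 0 < (m.totient : ℝ)⁻¹ := inv_pos.mpr (mod_cast m.totient.pos_of_neZero)
  simp only [sub_self, mul_zero, sub_zero] at hle
  exact absurd hle (not_le.2 hpos)

theorem ns (m : ℕ) [NeZero m] :
    ¬ Summable (fun q : ℕ => if q.Prime ∧ (q : ZMod m) = 1 then (1 : ℝ) / q else 0) :=
  ns_unit isUnit_one

end Pool.Agent.H64NS
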